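import Pool.Agent.N662.FP.Stm3

/-!
Project FL part 3 (helper662), part STEP (helper249): one step of the recursion.
-/

set_option autoImplicit false
open MeasureTheory ProbabilityTheory Filter Set
open scoped ENNReal Pointwise Topology

namespace Pool.Agent.N249.FN

open Pool.Agent.N662.FP

theorem zero_mem (R : ℕ) : (0 : ℤ × ℤ) ∈ Box R := by
  unfold Box
  rw [Finset.mem_product, Finset.mem_Icc, Finset.mem_Icc]
  have h : (0 : ℤ) ≤ R := Int.natCast_nonneg R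
  exact ⟨⟨neg_nonpos.2 h, h⟩, neg_nonpos.2 h, h⟩

theorem t_STEP (h1 : S_CUT) (h2 : S_END) (h3 : S_CNTX) (h4 : S_WMAX) (h5 : S_BB) (h6 : S_PT)
    (h7 : S_AE) : S_STEP := by
  intro Ω _ _ X hX μ C hC hμ R k L v s a W ρ hs ha hW hρ hv hk hW2 hprob
  have hae := h7 Ω X hX
  have hsub : ∀ᵐ ω ∂(volume : Measure Ω), D (env X ω) 0 v ≤ μ (em v) - s →
      ((BB μ (env X ω) R a ∨ (∃ x ∈ Box R, FastAt (env X ω) x k)) ∨
        (∃ x ∈ Box R, FastAt (env X ω) x R)) ∨
      (∃ x ∈ Box R, ∃ y ∈ Box R, W < env X ω s(x, y)) := by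
    filter_upwards [hae] with ω hω hD
    by_cases hbig : ∃ x ∈ Box R, ∃ y ∈ Box R, W < env X ω s(x, y)
    · exact Or.inr hbig
    rcases h6 μ (env X ω) hω R v s hs hv hD with hA | hF
    · rcases h1 μ (env X ω) hω R (s - 1) (μ (em v) + 1) a W ha hW (fun x hx y hy => by
        by_contra hc
        exact hbig ⟨x, hx, y, hy, lt_of_not_ge hc⟩) hA L with hA2 | hB
      · exact Or.inl (Or.inl (Or.inr (h2 μ C hC hμ (env X ω) hω R k _ _ hk hW2 hA2)))
      · exact Or.inl (Or.inl (Or.inl hB))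
    · exact Or.inl (Or.inr ⟨0, zero_mem R, hF⟩)
  have hle : (volume : Measure Ω).real {ω | D (env X ω) 0 v ≤ μ (em v) - s} ≤
      (volume : Measure Ω).real ((({ω | BB μ (env X ω) R a} ∪
        {ω | ∃ x ∈ Box R, FastAt (env X ω) x k}) ∪ {ω | ∃ x ∈ Box R, FastAt (env X ω) x R}) ∪
        {ω | ∃ x ∈ Box R, ∃ y ∈ Box R, W < env X ω s(x, y)}) := by
    refine ENNReal.toReal_mono (measure_ne_top _ _) (measure_mono_ae ?_)
    filter_upwards [hsub] with ω hω hD
    exact hω hD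
  have e1 := h5 Ω X hX μ R a ρ hρ hprob
  have e2 := h3 Ω X hX R k
  have e3 := h3 Ω X hX R R
  have e4 := h4 Ω X hX R W hW
  have u1 := measureReal_union_le (μ := (volume : Measure Ω)) (({ω | BB μ (env X ω) R a} ∪
    {ω | ∃ x ∈ Box R, FastAt (env X ω) x k}) ∪ {ω | ∃ x ∈ Box R, FastAt (env X ω) x R})
    {ω | ∃ x ∈ Box R, ∃ y ∈ Box R, W < env X ω s(x, y)}
  have u2 := measureReal_union_le (μ := (volume : Measure Ω)) ({ω | BB μ (env X ω) R a} ∪
    {ω | ∃ x ∈ Box R, FastAt (env X ω) x k}) {ω | ∃ x ∈ Box R, FastAt (env X ω) x R}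
  have u3 := measureReal_union_le (μ := (volume : Measure Ω)) {ω | BB μ (env X ω) R a}
    {ω | ∃ x ∈ Box R, FastAt (env X ω) x k}
  linarith

end Pool.Agent.N249.FN
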